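import Mathlib

open Filter

namespace Pool.Agent.Results.MP_35c1fe_nt.NOverLog

/-- A perfect difference set: a set of positive integers such that every positive integer `n`
is `a - b` for exactly one pair `(a, b)` of its elements. -/
def IsPerfectDifferenceSet (A : Set ℕ) : Prop :=
  (∀ a ∈ A, 1 ≤ a) ∧
    ∀ n : ℕ, 1 ≤ n → ∃! p : ℕ × ℕ, p.1 ∈ A ∧ p.2 ∈ A ∧ p.1 = p.2 + n

/-- `a` is the larger element `a_n` of a pair of elements of `A` with difference `n`. -/
def IsUpper (A : Set ℕ) (n a : ℕ) : Prop := a ∈ A ∧ ∃ b ∈ A, a = b + n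

/-- The class of growth functions in the problem. -/
def growthClass : Set (ℕ → ℝ) :=
  {G | Monotone G ∧ ∀ A : Set ℕ, IsPerfectDifferenceSet A →
    ∃ c : ℝ, 0 < c ∧ ∃ᶠ n : ℕ in atTop, ∃ a : ℕ, IsUpper A n a ∧ c * n * G n ≤ a}

lemma pds_uniq {A : Set ℕ} (hA : IsPerfectDifferenceSet A) {a b a' b' n : ℕ} (hn : 1 ≤ n)
    (ha : a ∈ A) (hb : b ∈ A) (ha' : a' ∈ A) (hb' : b' ∈ A) (h : a = b + n) (h' : a' = b' + n) :
    a = a' ∧ b = b' := by
  obtain ⟨p, _, hp⟩ := hA.2 n hn
  have h1 := hp (a, b) ⟨ha, hb, h⟩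
  have h2 := hp (a', b') ⟨ha', hb', h'⟩
  have h3 : (a, b) = (a', b') := h1.trans h2.symm
  exact ⟨congrArg Prod.fst h3, congrArg Prod.snd h3⟩

/-- Two naturals whose quotients by `g` have the same floor differ by less than `g`. -/
lemma close_of_floor_eq {g x y : ℝ} (hg : 0 < g) (hx : 0 ≤ x) (hy : 0 ≤ y)
    (h : ⌊x / g⌋₊ = ⌊y / g⌋₊) : |x - y| < g := by
  have h1 := Nat.floor_le (div_nonneg hx hg.le)
  have h2 := Nat.lt_floor_add_one (x / g)
  have h3 := Nat.floor_le (div_nonneg hy hg.le)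
  have h4 := Nat.lt_floor_add_one (y / g)
  rw [h] at h1 h2
  have h5 : |x / g - y / g| < 1 := by
    rw [abs_lt]; constructor <;> linarith
  have h6 : x - y = (x / g - y / g) * g := by field_simp
  rw [h6, abs_mul, abs_of_pos hg]
  nlinarith

lemma gap_pair {A : Set ℕ} {Y : ℕ}
    (hgap : ∀ a ∈ A, ∀ b ∈ A, b < a → Y < a → 100 * (a : ℝ) * Real.log a < ((a : ℝ) - b) ^ 2)
    {m : ℝ} (hm : 1 ≤ m) {g : ℝ} (hg0 : 0 < g) (hg : g ^ 2 ≤ 100 * m * Real.log m)
    {a b : ℕ} (ha : a ∈ A) (hb : b ∈ A) (haY : Y < a) (hbY : Y < b) (ham : m ≤ a) (hbm : m ≤ b)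
    (hab : |(a : ℝ) - b| < g) : a = b := by
  have key : ∀ a ∈ A, ∀ b ∈ A, b < a → Y < a → m ≤ (a : ℝ) → g ≤ (a : ℝ) - b := by
    intro a ha b hb hlt hY ham
    have h1 := hgap a ha b hb hlt hY
    have hlog : Real.log m ≤ Real.log a := Real.log_le_log (by linarith) ham
    have hlm : 0 ≤ Real.log m := Real.log_nonneg hm
    have h2 : 100 * m * Real.log m ≤ 100 * (a : ℝ) * Real.log a := by
      have := mul_le_mul ham hlog hlm (by linarith : (0 : ℝ) ≤ a)
      linarith
    have h3 : (0 : ℝ) < (a : ℝ) - b := by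
      have : (b : ℝ) < a := by exact_mod_cast hlt
      linarith
    by_contra hcon
    push Not at hcon
    have : ((a : ℝ) - b) ^ 2 < g ^ 2 := by nlinarith
    linarith
  rcases lt_trichotomy a b with h | h | h
  · have := key b hb a ha h hbY hbm
    rw [abs_lt] at hab
    linarith [hab.1]
  · exact h
  · have := key a ha b hb h haY ham
    rw [abs_lt] at hab
    linarith [hab.2]

/-- One block: the number of `n ≤ N` whose upper element lies in `(y, 2y]`, where `4N ≤ y`. -/
lemma block_count {A : Set ℕ} {Y N y : ℕ} (up lo : ℕ → ℕ)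
    (hup : ∀ n, 1 ≤ n → up n ∈ A) (hlo : ∀ n, 1 ≤ n → lo n ∈ A)
    (heq : ∀ n, 1 ≤ n → up n = lo n + n)
    (hgap : ∀ a ∈ A, ∀ b ∈ A, b < a → Y < a → 100 * (a : ℝ) * Real.log a < ((a : ℝ) - b) ^ 2)
    (hN1 : 1 ≤ N) (hN : 1 ≤ Real.log N) (hYN : Y ≤ N / 2) (hy : 4 * N ≤ y) :
    (((Finset.Ioc (N / 2) N).filter (fun n => y < up n ∧ up n ≤ 2 * y)).card : ℝ)
      ≤ N / (50 * Real.log N) + Real.sqrt N := by
  set l := Real.log N with hl
  have hNr : (1 : ℝ) ≤ N := by exact_mod_cast hN1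
  have hyr : 4 * (N : ℝ) ≤ y := by exact_mod_cast hy
  set g := Real.sqrt (50 * y * l) with hgdef
  have hg2 : g ^ 2 = 50 * y * l := Real.sq_sqrt (by positivity)
  have hgpos : 0 < g := Real.sqrt_pos.mpr (by
    have : (0 : ℝ) < y := by linarith
    positivity)
  have hgN : 2 * Real.sqrt N ≤ g := by
    rw [hgdef]
    apply Real.le_sqrt_of_sq_le
    rw [mul_pow, Real.sq_sqrt (by linarith)]
    nlinarith
  -- the gap property on this block
  have hm1 : (1 : ℝ) ≤ (y : ℝ) / 2 := by linarith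
  have hgm : g ^ 2 ≤ 100 * ((y : ℝ) / 2) * Real.log ((y : ℝ) / 2) := by
    rw [hg2]
    have : l ≤ Real.log ((y : ℝ) / 2) := Real.log_le_log (by linarith) (by linarith)
    nlinarith
  have hclose : ∀ a ∈ A, ∀ b ∈ A, y - N < a → y - N < b → |(a : ℝ) - b| < g → a = b := by
    intro a ha b hb hay hby hab
    refine gap_pair hgap hm1 hgpos hgm ha hb (by omega) (by omega) ?_ ?_ hab
    · have : y ≤ 2 * a := by omega
      have : (y : ℝ) ≤ 2 * a := by exact_mod_cast this
      linarith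
    · have : y ≤ 2 * b := by omega
      have : (y : ℝ) ≤ 2 * b := by exact_mod_cast this
      linarith
  set P := (Finset.Ioc (N / 2) N).filter (fun n => y < up n ∧ up n ≤ 2 * y) with hP
  have hPmem : ∀ n ∈ P, 1 ≤ n ∧ n ≤ N ∧ y < up n ∧ up n ≤ 2 * y := by
    intro n hn
    rw [hP, Finset.mem_filter, Finset.mem_Ioc] at hn
    refine ⟨by omega, hn.1.2, hn.2.1, hn.2.2⟩
  let φ : ℕ → ℕ × ℕ := fun n => (⌊(up n : ℝ) / g⌋₊, ⌊(n : ℝ) / g⌋₊)
  have hcard : P.card ≤ ((Finset.Icc ⌊(y : ℝ) / g⌋₊ ⌊2 * (y : ℝ) / g⌋₊) ×ˢ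
      (Finset.Icc 1 ⌊(N : ℝ) / g⌋₊)).card := by
    apply Finset.card_le_card_of_injOn φ
    · intro n hn
      obtain ⟨h1, h2, h3, h4⟩ := hPmem n hn
      have h3' : (y : ℝ) < up n := by exact_mod_cast h3
      have h4' : (up n : ℝ) ≤ 2 * y := by exact_mod_cast h4
      have h2' : (n : ℝ) ≤ N := by exact_mod_cast h2
      simp only [φ, Finset.coe_product, Finset.coe_Icc, Set.mem_prod, Set.mem_Icc]
      refine ⟨⟨?_, ?_⟩, ?_, ?_⟩
      · exact Nat.floor_le_floor (by gcongr)
      · exact Nat.floor_le_floor (by gcongr)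
      · rw [Nat.one_le_floor_iff, le_div_iff₀ hgpos, one_mul]
        by_contra hcon
        push Not at hcon
        have hne : up n = lo n := by
          apply hclose _ (hup n h1) _ (hlo n h1) (by omega)
          · have := heq n h1
            omega
          · have : (up n : ℝ) = lo n + n := by exact_mod_cast heq n h1
            rw [this]
            simp only [add_sub_cancel_left]
            rw [abs_of_nonneg (by positivity)]
            exact hcon
        have := heq n h1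
        omega
      · exact Nat.floor_le_floor (by gcongr)
    · intro n hn n' hn' hφ
      obtain ⟨h1, h2, h3, h4⟩ := hPmem n hn
      obtain ⟨h1', h2', h3', h4'⟩ := hPmem n' hn'
      simp only [φ, Prod.mk.injEq] at hφ
      have hu : up n = up n' := by
        apply hclose _ (hup n h1) _ (hup n' h1') (by omega) (by omega)
        exact close_of_floor_eq hgpos (by positivity) (by positivity) hφ.1
      have e1 := heq n h1
      have e2 := heq n' h1'
      have hll : lo n = lo n' := by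
        apply hclose _ (hlo n h1) _ (hlo n' h1') (by omega) (by omega)
        have hnn := close_of_floor_eq hgpos (by positivity : (0 : ℝ) ≤ n)
          (by positivity : (0 : ℝ) ≤ n') hφ.2
        have e3 : (lo n : ℝ) = up n - n := by
          have : (up n : ℝ) = lo n + n := by exact_mod_cast e1
          linarith
        have e4 : (lo n' : ℝ) = up n' - n' := by
          have : (up n' : ℝ) = lo n' + n' := by exact_mod_cast e2
          linarith
        rw [e3, e4, hu, show (up n' : ℝ) - n - (up n' - n') = -((n : ℝ) - n') by ring, abs_neg]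
        exact hnn
      omega
  rw [Finset.card_product, Nat.card_Icc, Nat.card_Icc, Nat.add_sub_cancel] at hcard
  have hc1 : ((⌊2 * (y : ℝ) / g⌋₊ + 1 - ⌊(y : ℝ) / g⌋₊ : ℕ) : ℝ) ≤ y / g + 2 := by
    have ha : ⌊(y : ℝ) / g⌋₊ ≤ ⌊2 * (y : ℝ) / g⌋₊ := Nat.floor_le_floor (by
      gcongr; linarith [(Nat.cast_nonneg y : (0 : ℝ) ≤ y)])
    have hb := Nat.floor_le (by positivity : 0 ≤ 2 * (y : ℝ) / g)
    have hc := Nat.lt_floor_add_one ((y : ℝ) / g)
    rw [Nat.cast_sub (by omega)]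
    push_cast
    have : 2 * (y : ℝ) / g = y / g + y / g := by ring
    linarith
  have hc2 : (⌊(N : ℝ) / g⌋₊ : ℝ) ≤ N / g := Nat.floor_le (by positivity)
  have hfin : (P.card : ℝ) ≤ (y / g + 2) * (N / g) := by
    calc (P.card : ℝ) ≤ (((⌊2 * (y : ℝ) / g⌋₊ + 1 - ⌊(y : ℝ) / g⌋₊) * ⌊(N : ℝ) / g⌋₊ : ℕ) : ℝ) := by
          exact_mod_cast hcard
      _ = ((⌊2 * (y : ℝ) / g⌋₊ + 1 - ⌊(y : ℝ) / g⌋₊ : ℕ) : ℝ) * (⌊(N : ℝ) / g⌋₊ : ℝ) := by
          push_cast; ring
      _ ≤ (y / g + 2) * (N / g) := by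
          apply mul_le_mul hc1 hc2 (by positivity) (by positivity)
  have hy0 : (0 : ℝ) < y := by linarith
  have e5 : (y / g + 2) * (N / g) = N / (50 * l) + 2 * N / g := by
    have : (y : ℝ) / g * (N / g) = y * N / g ^ 2 := by field_simp
    rw [add_mul, this, hg2]
    field_simp
  have e6 : 2 * (N : ℝ) / g ≤ Real.sqrt N := by
    rw [div_le_iff₀ hgpos]
    have := Real.mul_self_sqrt (by linarith : (0 : ℝ) ≤ N)
    nlinarith [Real.sqrt_nonneg (N : ℝ)]
  linarith

/-- A perfect difference set has at most `4 √N` elements in `[1, 4N]`. -/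
lemma card_le {A : Set ℕ} (hA : IsPerfectDifferenceSet A) {N : ℕ} (hN : 1 ≤ N) (S : Finset ℕ)
    (hS : ∀ a ∈ S, a ∈ A ∧ a ≤ 4 * N) : (S.card : ℝ) ≤ 4 * Real.sqrt N := by
  have h1 : S.offDiag.card ≤ (Finset.Icc (-(4 * N : ℤ)) (4 * N : ℤ)).card := by
    apply Finset.card_le_card_of_injOn (fun p : ℕ × ℕ => (p.1 : ℤ) - p.2)
    · intro p hp
      rw [Finset.mem_coe, Finset.mem_offDiag] at hp
      have ha := (hS _ hp.1).2
      have hb := (hS _ hp.2.1).2
      simp only [Finset.coe_Icc, Set.mem_Icc]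
      omega
    · intro p hp q hq hpq
      rw [Finset.mem_coe, Finset.mem_offDiag] at hp hq
      obtain ⟨hp1, hp2, hp3⟩ := hp
      obtain ⟨hq1, hq2, hq3⟩ := hq
      simp only at hpq
      rcases lt_or_gt_of_ne hp3 with h | h
      · have := pds_uniq hA (n := p.2 - p.1) (by omega) (hS _ hp2).1 (hS _ hp1).1
          (hS _ hq2).1 (hS _ hq1).1 (by omega) (by omega)
        exact Prod.ext this.2 this.1
      · have := pds_uniq hA (n := p.1 - p.2) (by omega) (hS _ hp1).1 (hS _ hp2).1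
          (hS _ hq1).1 (hS _ hq2).1 (by omega) (by omega)
        exact Prod.ext this.1 this.2
  rw [Finset.offDiag_card, Int.card_Icc] at h1
  have h2 : (S.card * S.card : ℕ) ≤ 8 * N + 1 + S.card := by
    have : (4 * (N : ℤ) + 1 - -(4 * (N : ℤ))).toNat = 8 * N + 1 := by omega
    omega
  have h3 : (S.card : ℝ) * S.card ≤ 8 * N + 1 + S.card := by exact_mod_cast h2
  have hNr : (1 : ℝ) ≤ N := by exact_mod_cast hN
  have hs1 : 1 ≤ Real.sqrt N := by
    rw [← Real.sqrt_one]; exact Real.sqrt_le_sqrt hNr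
  have hs2 := Real.mul_self_sqrt (by linarith : (0 : ℝ) ≤ N)
  by_contra hcon
  push Not at hcon
  nlinarith

/-- The number of `n ∈ (N/2, N]` whose upper element is at most `4N`. -/
lemma low_count {A : Set ℕ} (hA : IsPerfectDifferenceSet A) {Y N : ℕ} (up lo : ℕ → ℕ)
    (hup : ∀ n, 1 ≤ n → up n ∈ A) (hlo : ∀ n, 1 ≤ n → lo n ∈ A)
    (heq : ∀ n, 1 ≤ n → up n = lo n + n)
    (hgap : ∀ a ∈ A, ∀ b ∈ A, b < a → Y < a → 100 * (a : ℝ) * Real.log a < ((a : ℝ) - b) ^ 2)
    (hN4 : 4 ≤ N) (hN : 1 ≤ Real.log N) (hYN : Y ≤ N / 2) :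
    (((Finset.Ioc (N / 2) N).filter (fun n => up n ≤ 4 * N)).card : ℝ)
      ≤ (4 * N / (5 * Real.sqrt (N * Real.log N)) + 1) * (4 * Real.sqrt N) := by
  classical
  set l := Real.log N with hl
  have hNr : (4 : ℝ) ≤ N := by exact_mod_cast hN4
  set g := 5 * Real.sqrt (N * l) with hgdef
  have hg2 : g ^ 2 = 25 * (N * l) := by
    rw [hgdef, mul_pow, Real.sq_sqrt (by positivity)]; norm_num
  have hgpos : 0 < g := by
    rw [hgdef]
    have : 0 < (N : ℝ) * l := by positivity
    have := Real.sqrt_pos.mpr this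
    positivity
  have hm1 : (1 : ℝ) ≤ (N : ℝ) / 2 := by linarith
  have hgm : g ^ 2 ≤ 100 * ((N : ℝ) / 2) * Real.log ((N : ℝ) / 2) := by
    rw [hg2]
    have h1 : l ≤ 2 * Real.log ((N : ℝ) / 2) := by
      have : Real.log N ≤ Real.log (((N : ℝ) / 2) ^ 2) :=
        Real.log_le_log (by linarith) (by nlinarith)
      rwa [Real.log_pow, Nat.cast_ofNat] at this
    nlinarith
  have hclose : ∀ a ∈ A, ∀ b ∈ A, N / 2 < a → N / 2 < b → |(a : ℝ) - b| < g → a = b := by
    intro a ha b hb hay hby hab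
    refine gap_pair hgap hm1 hgpos hgm ha hb (by omega) (by omega) ?_ ?_ hab
    · have : N ≤ 2 * a := by omega
      have : (N : ℝ) ≤ 2 * a := by exact_mod_cast this
      linarith
    · have : N ≤ 2 * b := by omega
      have : (N : ℝ) ≤ 2 * b := by exact_mod_cast this
      linarith
  set P := (Finset.Ioc (N / 2) N).filter (fun n => up n ≤ 4 * N) with hP
  have hPmem : ∀ n ∈ P, 1 ≤ n ∧ N / 2 < n ∧ up n ≤ 4 * N := by
    intro n hn
    rw [hP, Finset.mem_filter, Finset.mem_Ioc] at hn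
    exact ⟨by omega, hn.1.1, hn.2⟩
  set S := (Finset.Icc 1 (4 * N)).filter (· ∈ A) with hS
  have hScard : (S.card : ℝ) ≤ 4 * Real.sqrt N := by
    apply card_le hA (by omega)
    intro a ha
    rw [hS, Finset.mem_filter, Finset.mem_Icc] at ha
    exact ⟨ha.2, ha.1.2⟩
  let φ : ℕ → ℕ × ℕ := fun n => (⌊(up n : ℝ) / g⌋₊, lo n)
  have hcard : P.card ≤ ((Finset.range (⌊4 * (N : ℝ) / g⌋₊ + 1)) ×ˢ S).card := by
    apply Finset.card_le_card_of_injOn φ
    · intro n hn
      obtain ⟨h1, h2, h3⟩ := hPmem n hn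
      have h3' : (up n : ℝ) ≤ 4 * N := by exact_mod_cast h3
      simp only [φ, Finset.coe_product, Set.mem_prod, Finset.mem_coe, Finset.mem_range]
      refine ⟨?_, ?_⟩
      · have : ⌊(up n : ℝ) / g⌋₊ ≤ ⌊4 * (N : ℝ) / g⌋₊ := Nat.floor_le_floor (by gcongr)
        omega
      · rw [hS, Finset.mem_filter, Finset.mem_Icc]
        have h4 := heq n h1
        refine ⟨⟨hA.1 _ (hlo n h1), by omega⟩, hlo n h1⟩
    · intro n hn n' hn' hφ
      obtain ⟨h1, h2, h3⟩ := hPmem n hn
      obtain ⟨h1', h2', h3'⟩ := hPmem n' hn'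
      simp only [φ, Prod.mk.injEq] at hφ
      have e1 := heq n h1
      have e2 := heq n' h1'
      have hu : up n = up n' := by
        apply hclose _ (hup n h1) _ (hup n' h1') (by omega) (by omega)
        exact close_of_floor_eq hgpos (by positivity) (by positivity) hφ.1
      omega
  rw [Finset.card_product, Finset.card_range] at hcard
  calc (P.card : ℝ) ≤ (((⌊4 * (N : ℝ) / g⌋₊ + 1) * S.card : ℕ) : ℝ) := by exact_mod_cast hcard
    _ = ((⌊4 * (N : ℝ) / g⌋₊ : ℝ) + 1) * (S.card : ℝ) := by push_cast; ring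
    _ ≤ (4 * N / g + 1) * (4 * Real.sqrt N) := by
        apply mul_le_mul _ hScard (by positivity) (by positivity)
        have := Nat.floor_le (by positivity : 0 ≤ 4 * (N : ℝ) / g)
        linarith

/-- The gap property forces a contradiction. -/
lemma gap_false {A : Set ℕ} (hA : IsPerfectDifferenceSet A) {Y n0 : ℕ} (up lo : ℕ → ℕ)
    (hup : ∀ n, 1 ≤ n → up n ∈ A) (hlo : ∀ n, 1 ≤ n → lo n ∈ A)
    (heq : ∀ n, 1 ≤ n → up n = lo n + n)
    (hgap : ∀ a ∈ A, ∀ b ∈ A, b < a → Y < a → 100 * (a : ℝ) * Real.log a < ((a : ℝ) - b) ^ 2)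
    (hbd : ∀ n, n0 ≤ n → 1 ≤ n → up n ≤ n ^ 2) : False := by
  -- choose N large
  have ev1 : ∀ᶠ N : ℕ in atTop, 1024 ≤ Real.log N :=
    (Real.tendsto_log_atTop.comp tendsto_natCast_atTop_atTop).eventually_ge_atTop 1024
  have ev2 : ∀ᶠ N : ℕ in atTop, 20 * Real.log N ≤ Real.sqrt N := by
    have h := (isLittleO_log_rpow_atTop (by norm_num : (0 : ℝ) < 1 / 2)).bound
      (by norm_num : (0 : ℝ) < 1 / 20)
    have h2 := (tendsto_natCast_atTop_atTop (R := ℝ)).eventually h
    filter_upwards [h2, ev1] with N h3 h4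
    rw [Real.norm_of_nonneg (by linarith), Real.norm_of_nonneg (by positivity),
      ← Real.sqrt_eq_rpow] at h3
    linarith
  obtain ⟨N, h1, h2, h3⟩ := (ev1.and (ev2.and (eventually_ge_atTop (2 * n0 + 2 * Y + 4)))).exists
  have hN4 : 4 ≤ N := by omega
  have hNr : (4 : ℝ) ≤ N := by exact_mod_cast hN4
  set l := Real.log N with hl
  set s := Real.sqrt N with hs
  have hss : s * s = N := Real.mul_self_sqrt (by linarith)
  have hs0 : 20480 ≤ s := by linarith
  set B := (N : ℝ) / (50 * l) + s with hB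
  set T := Finset.Ioc (N / 2) N with hT
  -- iterate the block bound
  have hiter : ∀ i : ℕ, ((T.filter (fun n => up n ≤ 2 ^ i * (4 * N))).card : ℝ)
      ≤ ((T.filter (fun n => up n ≤ 4 * N)).card : ℝ) + i * B := by
    intro i
    induction i with
    | zero => simp
    | succ i ih =>
      have hsub : T.filter (fun n => up n ≤ 2 ^ (i + 1) * (4 * N)) ⊆
          T.filter (fun n => up n ≤ 2 ^ i * (4 * N)) ∪
            T.filter (fun n => 2 ^ i * (4 * N) < up n ∧ up n ≤ 2 * (2 ^ i * (4 * N))) := by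
        intro n hn
        rw [Finset.mem_filter] at hn
        rw [Finset.mem_union, Finset.mem_filter, Finset.mem_filter]
        rcases le_or_gt (up n) (2 ^ i * (4 * N)) with h | h
        · exact Or.inl ⟨hn.1, h⟩
        · refine Or.inr ⟨hn.1, h, ?_⟩
          have := hn.2
          rw [pow_succ] at this
          linarith
      have hb := block_count (y := 2 ^ i * (4 * N)) up lo hup hlo heq hgap (by omega : 1 ≤ N)
        (by linarith) (by omega : Y ≤ N / 2) (by
          have : 1 ≤ 2 ^ i := Nat.one_le_two_pow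
          nlinarith)
      have hc : ((T.filter (fun n => up n ≤ 2 ^ (i + 1) * (4 * N))).card : ℝ) ≤
          ((T.filter (fun n => up n ≤ 2 ^ i * (4 * N))).card : ℝ) +
          ((T.filter (fun n => 2 ^ i * (4 * N) < up n ∧
            up n ≤ 2 * (2 ^ i * (4 * N)))).card : ℝ) := by
        exact_mod_cast (Finset.card_le_card hsub).trans (Finset.card_union_le _ _)
      push_cast
      linarith
  -- all of T is reached after log2 N steps
  set J := Nat.log 2 N with hJ
  have hJ1 : N < 2 ^ (J + 1) := Nat.lt_pow_succ_log_self (by norm_num) N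
  have hall : T.filter (fun n => up n ≤ 2 ^ J * (4 * N)) = T := by
    apply Finset.filter_true_of_mem
    intro n hn
    rw [hT, Finset.mem_Ioc] at hn
    have h5 := hbd n (by omega) (by omega)
    calc up n ≤ n ^ 2 := h5
      _ ≤ N ^ 2 := Nat.pow_le_pow_left hn.2 2
      _ = N * N := by ring
      _ ≤ 2 ^ (J + 1) * N := Nat.mul_le_mul_right N hJ1.le
      _ = 2 ^ J * (2 * N) := by ring
      _ ≤ 2 ^ J * (4 * N) := by gcongr; norm_num
  have hTcard : (N : ℝ) / 2 ≤ (T.card : ℝ) := by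
    rw [hT, Nat.card_Ioc]
    have : N ≤ 2 * (N - N / 2) := by omega
    have : (N : ℝ) ≤ 2 * ((N - N / 2 : ℕ) : ℝ) := by exact_mod_cast this
    linarith
  have hmain := hiter J
  rw [hall] at hmain
  have hlow := low_count hA up lo hup hlo heq hgap hN4 (by linarith) (by omega : Y ≤ N / 2)
  -- J ≤ 2 l
  have hJl : (J : ℝ) ≤ 2 * l := by
    have h6 : (2 : ℝ) ^ J ≤ N := by exact_mod_cast Nat.pow_log_le_self 2 (by omega)
    have h7 := Real.log_le_log (by positivity) h6
    rw [Real.log_pow] at h7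
    have h8 := Real.log_two_gt_d9
    have : (0 : ℝ) ≤ J := by positivity
    nlinarith
  have hlpos : 0 < l := by linarith
  have hJB : (J : ℝ) * B ≤ N / 25 + 2 * l * s := by
    have h9 : 0 ≤ B := by positivity
    calc (J : ℝ) * B ≤ 2 * l * B := mul_le_mul_of_nonneg_right hJl h9
      _ = N / 25 + 2 * l * s := by rw [hB]; field_simp; ring
  have hsq : Real.sqrt (N * l) = s * Real.sqrt l := Real.sqrt_mul (by linarith) l
  have hsl : 32 ≤ Real.sqrt l := by
    apply Real.le_sqrt_of_sq_le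
    linarith
  have hlow2 : (4 * N / (5 * Real.sqrt (N * l)) + 1) * (4 * s) ≤ N / 10 + 4 * s := by
    rw [hsq]
    have e1 : (4 * (N : ℝ) / (5 * (s * Real.sqrt l)) + 1) * (4 * s)
        = 16 * N / (5 * Real.sqrt l) + 4 * s := by
      field_simp
      ring
    rw [e1]
    have e2 : 16 * (N : ℝ) / (5 * Real.sqrt l) ≤ N / 10 := by
      rw [div_le_div_iff₀ (by positivity) (by norm_num)]
      nlinarith
    linarith
  have e3 : 2 * l * s ≤ N / 10 := by nlinarith
  have e4 : 4 * s ≤ N / 10 := by nlinarith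
  linarith

lemma one_le_log_add_two {n : ℕ} (hn : 1 ≤ n) : 1 ≤ Real.log ((n : ℝ) + 2) := by
  have hnr : (1 : ℝ) ≤ n := by exact_mod_cast hn
  rw [Real.le_log_iff_exp_le (by positivity)]
  linarith [Real.exp_one_lt_d9]

lemma monotone_G : Monotone (fun n : ℕ => (n : ℝ) / Real.log ((n : ℝ) + 2)) := by
  apply monotone_nat_of_le_succ
  intro n
  rcases Nat.eq_zero_or_pos n with h | h
  · subst h
    simp only [Nat.cast_zero, zero_div, zero_add, Nat.cast_one]
    have := one_le_log_add_two (n := 1) le_rfl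
    push_cast at this
    positivity
  · have hnr : (1 : ℝ) ≤ n := by exact_mod_cast h
    have h1 := one_le_log_add_two h
    have h2 : Real.log ((n : ℝ) + 1 + 2) ≤ Real.log ((n : ℝ) + 2) + 1 / ((n : ℝ) + 2) := by
      have h3 : Real.log (((n : ℝ) + 1 + 2) / ((n : ℝ) + 2)) ≤
          ((n : ℝ) + 1 + 2) / ((n : ℝ) + 2) - 1 := Real.log_le_sub_one_of_pos (by positivity)
      rw [Real.log_div (by positivity) (by positivity)] at h3
      have h4 : ((n : ℝ) + 1 + 2) / ((n : ℝ) + 2) - 1 = 1 / ((n : ℝ) + 2) := by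
        field_simp
        ring
      linarith
    have h5 : 0 < Real.log ((n : ℝ) + 1 + 2) := Real.log_pos (by linarith)
    push_cast
    rw [div_le_div_iff₀ (by linarith) h5]
    have h6 : (n : ℝ) * (1 / ((n : ℝ) + 2)) ≤ 1 := by
      rw [mul_one_div, div_le_one (by positivity)]
      linarith
    nlinarith

/-- Quantitative form: in every perfect difference set, `a_n ≥ n² / (200 log (n+2))` for
infinitely many `n`. -/
lemma quantitative {A : Set ℕ} (hA : IsPerfectDifferenceSet A) :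
    ∃ᶠ n : ℕ in atTop, ∃ a : ℕ, IsUpper A n a ∧
      1 / 200 * (n : ℝ) * ((n : ℝ) / Real.log ((n : ℝ) + 2)) ≤ a := by
  by_contra hcon
  rw [Filter.not_frequently, Filter.eventually_atTop] at hcon
  obtain ⟨n0, hn0⟩ := hcon
  have hex : ∀ n : ℕ, 1 ≤ n → ∃ p : ℕ × ℕ, p.1 ∈ A ∧ p.2 ∈ A ∧ p.1 = p.2 + n := by
    intro n hn
    obtain ⟨p, hp, _⟩ := hA.2 n hn
    exact ⟨p, hp⟩
  choose! p hp using hex
  have hbound : ∀ n, n0 ≤ n → 1 ≤ n →
      200 * ((p n).1 : ℝ) * Real.log ((n : ℝ) + 2) < (n : ℝ) ^ 2 := by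
    intro n hn hn1
    have h := hn0 n hn
    push Not at h
    have h1 := h (p n).1 ⟨(hp n hn1).1, (p n).2, (hp n hn1).2.1, (hp n hn1).2.2⟩
    have h2 := one_le_log_add_two hn1
    have h3 : (1 : ℝ) / 200 * n * (n / Real.log ((n : ℝ) + 2)) =
        (n : ℝ) ^ 2 / (200 * Real.log ((n : ℝ) + 2)) := by
      field_simp
    rw [h3, lt_div_iff₀ (by linarith)] at h1
    linarith
  refine gap_false hA (Y := (Finset.range n0).sup (fun n => (p n).1)) (n0 := n0)
    (fun n => (p n).1) (fun n => (p n).2) (fun n hn => (hp n hn).1) (fun n hn => (hp n hn).2.1)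
    (fun n hn => (hp n hn).2.2) ?_ ?_
  · intro a ha b hb hba hY
    have hd1 : 1 ≤ a - b := by omega
    have hda : (p (a - b)).1 = a :=
      (pds_uniq hA hd1 (hp _ hd1).1 (hp _ hd1).2.1 ha hb (hp _ hd1).2.2 (by omega)).1
    have hdn : n0 ≤ a - b := by
      by_contra hlt
      push Not at hlt
      have := Finset.le_sup (f := fun n => (p n).1) (Finset.mem_range.mpr hlt)
      simp only [hda] at this
      omega
    have h1 := hbound (a - b) hdn hd1
    rw [hda] at h1
    have h2 := one_le_log_add_two hd1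
    have hcast : ((a - b : ℕ) : ℝ) = (a : ℝ) - b := Nat.cast_sub hba.le
    have ha1 : (1 : ℝ) ≤ a := by exact_mod_cast hA.1 a ha
    have hdr : (1 : ℝ) ≤ ((a - b : ℕ) : ℝ) := by exact_mod_cast hd1
    have h3 : (a : ℝ) ≤ ((a - b : ℕ) : ℝ) ^ 2 := by nlinarith
    have h4 : Real.log a ≤ 2 * Real.log (((a - b : ℕ) : ℝ) + 2) := by
      have h5 : Real.log a ≤ Real.log ((((a - b : ℕ) : ℝ) + 2) ^ 2) :=
        Real.log_le_log (by linarith) (by nlinarith)
      rwa [Real.log_pow, Nat.cast_ofNat] at h5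
    rw [← hcast]
    nlinarith
  · intro n hn hn1
    have h1 := hbound n hn hn1
    have h2 := one_le_log_add_two hn1
    have h3 : ((p n).1 : ℝ) ≤ (n : ℝ) ^ 2 := by
      have : (0 : ℝ) ≤ ((p n).1 : ℝ) := by positivity
      nlinarith
    exact_mod_cast h3

/-- The function `n / log (n + 2)` belongs to the class: every perfect difference set has
`a_n ≥ c n² / log (n + 2)` for infinitely many `n`. -/
theorem result : (fun n : ℕ => (n : ℝ) / Real.log ((n : ℝ) + 2)) ∈ growthClass :=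
  ⟨monotone_G, fun _ hA => ⟨1 / 200, by norm_num, quantitative hA⟩⟩

end Pool.Agent.Results.MP_35c1fe_nt.NOverLog
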